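import Mathlib
import Pool.Agent.K1H80.EC.Main

set_option autoImplicit false

/-!
# MP_44a246_nt: the inequality of Vojta over function fields for blow-ups of products of pairwise
# non-isogenous constant elliptic curves, all algebraic points

`F` is a function field of one variable over an algebraically closed field `k` of characteristic
zero, `A` the product of the elliptic curves `y² = x³ + a i x + b i`, `i < n`, over `k`, which are
pairwise not isogenous. `W` is any closed subscheme of `A` over `F` (not necessarily over `k`) of
codimension at least two. Then `h_W(P)` is at most `ε h(P)` plus a constant times the sum of the degree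
of `L` and the logarithmic discriminant of `L`, for the points `P` over all finite extensions `L` of
`F`, outside a proper closed subset.

This is the inequality of the conjecture, with `D = 0`, for the varieties `X` which are smooth,
projective and have a birational morphism to `A`: the canonical divisor of such an `X` is effective,
with image of codimension at least two, and so is at most a multiple of the exceptional divisor of the
blow-up of such a subscheme `W`.

All heights are those of `L`, that is, `[L : F]` times the heights of the conjecture.
-/

namespace Pool.Agent.K1H80.Old.CodimTwoEllipticProducts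

open MvPolynomial FF Pool.Agent.W603.PV

section defs

variable {k F L : Type} [Field k] [Field F] [Field L] [Algebra k L] [Algebra F L]

/-- The elliptic curves `y² = x³ + a x + b` and `y² = x³ + a' x + b'` over `k` are not isogenous:
over no extension field `M` of `k` is there a rational map `(X, Y)` from the first to the second
curve which is not constant. (Here `(x, y)` is a generic point of the first curve over `M`, the
coordinates `X`, `Y` of a rational map are elements of its function field `M(x, y)`, and the map is
constant if `X` is algebraic over `M`.) -/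
def NonIsogenous (a b a' b' : k) : Prop :=
  ∀ (M Ω : Type) [Field M] [Field Ω] [Algebra k M] [Algebra k Ω] [Algebra M Ω]
    [IsScalarTower k M Ω] (x y : Ω), Transcendental M x →
    y ^ 2 = x ^ 3 + algebraMap k Ω a * x + algebraMap k Ω b →
    ∀ X ∈ IntermediateField.adjoin M {x, y}, ∀ Y ∈ IntermediateField.adjoin M {x, y},
      Y ^ 2 = X ^ 3 + algebraMap k Ω a' * X + algebraMap k Ω b' → IsAlgebraic M X

/-- `G` is multihomogeneous of multidegree `d`: every monomial of `G` has the degree `d i` in the
three homogeneous coordinates of the `i`-th curve. -/
def IsMultihomogeneous {n : ℕ} (d : Fin n → ℕ) (G : MvPolynomial (Fin n × Fin 3) F) : Prop :=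
  ∀ m ∈ G.support, ∀ i, ∑ c, m (i, c) = d i

/-- `Q` consists of homogeneous coordinates of points of the curves
`Y² Z = X³ + a i X Z² + b i Z³`. -/
def IsPoint {n : ℕ} (a b : Fin n → k) (Q : Fin n × Fin 3 → L) : Prop :=
  ∀ i, (∃ c, Q (i, c) ≠ 0) ∧ Q (i, 1) ^ 2 * Q (i, 2) =
    Q (i, 0) ^ 3 + algebraMap k L (a i) * Q (i, 0) * Q (i, 2) ^ 2 +
      algebraMap k L (b i) * Q (i, 2) ^ 3

/-- The subscheme of the product of the curves with the equations `G j = 0` has codimension at least
two: if `Q` is a point of it, with coordinates in a field extension of `F`, then no `n - 1` of the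
functions `X i / Z i` are algebraically independent over `F` at `Q`. -/
def HasCodimTwo [Algebra k F] {n w : ℕ} (a b : Fin n → k)
    (G : Fin w → MvPolynomial (Fin n × Fin 3) F) : Prop :=
  ∀ (K : Type) [Field K] [Algebra k K] [Algebra F K] [IsScalarTower k F K]
    (Q : Fin n × Fin 3 → K), IsPoint a b Q → (∀ j, aeval Q (G j) = 0) →
    ∀ i0, ¬ AlgebraicIndependent F (fun i : {i : Fin n // i ≠ i0} => Q (i, 0) / Q (i, 2))

/-- Homogeneous coordinates `(x i, y i, 1)` of the points `(x i, y i)`. -/
def coords {n : ℕ} (x y : Fin n → L) (v : Fin n × Fin 3) : L := ![x v.1, y v.1, 1] v.2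

/-- The minimum of the orders of the nonzero entries of `x` at the place `P`. -/
noncomputable def minOrd {ι : Type} (P : Place k L) (x : ι → L) : ℤ :=
  ⨅ c : {c // x c ≠ 0}, P.ord (x c.1)

variable (k) in
/-- The height of the point with the homogeneous coordinates `x`: minus the sum over all places of
the minimum of the orders of the coordinates. -/
noncomputable def height {ι : Type} (x : ι → L) : ℤ := -∑ᶠ P : Place k L, minOrd P x

/-- The local height at `P` with respect to the subscheme with the equations `G j = 0`, `G j` of
multidegree `d j`: the minimum of the orders of `G j`, computed with coordinates of minimal order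
zero for each curve. -/
noncomputable def localHeight {n w : ℕ} (G : Fin w → MvPolynomial (Fin n × Fin 3) F)
    (d : Fin w → Fin n → ℕ) (P : Place k L) (Q : Fin n × Fin 3 → L) : ℤ :=
  ⨅ j : {j // aeval Q (G j) ≠ 0},
    (P.ord (aeval Q (G j.1)) - ∑ i, d j.1 i * minOrd P (fun c => Q (i, c)))

variable (k) in
/-- The height `h_W(Q)` with respect to the subscheme `W` with the equations `G j = 0`: the sum of all
local heights. -/
noncomputable def subschemeHeight {n w : ℕ} (G : Fin w → MvPolynomial (Fin n × Fin 3) F)
    (d : Fin w → Fin n → ℕ) (Q : Fin n × Fin 3 → L) : ℤ :=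
  ∑ᶠ P : Place k L, localHeight G d P Q

end defs

/-- **Main theorem.** Let `F` be a function field of one variable over an algebraically closed field
`k` of characteristic zero, `A` the product of pairwise non-isogenous elliptic curves
`y² = x³ + a i x + b i` over `k`, `W` a subscheme of `A` over `F` of codimension at least two and
`ε > 0`. There are a nonzero polynomial `f` over `F` and a constant `C` such that for all finite
extensions `L` of `F` and all points `P = ((x i, y i))` of `A` over `L` with `f(x) ≠ 0` and outside `W`
the inequality `h_W(P) ≤ ε h(P) + C ([L : F] + disc(L / F))` holds, `h(P)` being the sum of the heights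
of the `(x i, y i)`. -/
theorem result {k F : Type} [Field k] [IsAlgClosed k] [CharZero k] [Field F] [Algebra k F]
    [IsFF k F] (n w : ℕ) (a b : Fin n → k) (hab : ∀ i, 4 * a i ^ 3 + 27 * b i ^ 2 ≠ 0)
    (hni : ∀ i j, i ≠ j → NonIsogenous (a i) (b i) (a j) (b j))
    (G : Fin w → MvPolynomial (Fin n × Fin 3) F) (d : Fin w → Fin n → ℕ)
    (hG : ∀ j, IsMultihomogeneous (d j) (G j)) (hW : HasCodimTwo a b G)
    (ε : ℝ) (hε : 0 < ε) :
    ∃ (f : MvPolynomial (Fin n) F) (C : ℝ), f ≠ 0 ∧
      ∀ (L : Type) [Field L] [Algebra k L] [Algebra F L] [IsScalarTower k F L]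
        [FiniteDimensional F L] [IsFF k L] (x y : Fin n → L),
        (∀ i, y i ^ 2 = x i ^ 3 + algebraMap k L (a i) * x i + algebraMap k L (b i)) →
        aeval x f ≠ 0 → (∃ j, aeval (coords x y) (G j) ≠ 0) →
          (subschemeHeight k G d (coords x y) : ℝ) ≤
            ε * ∑ i, (height k ![x i, y i, 1] : ℝ) + C * (Module.finrank F L + disc k F L) := by
  classical
  obtain ⟨f, C, hf0, hmain⟩ := Pool.Agent.K1H80.EC.ecMain (k := k) (F := F) hab
    (fun i j hij => hni i j hij) G d (fun j => hG j) 0 (Or.inr ⟨rfl, hW⟩) ε hε
  refine ⟨f, C, hf0, ?_⟩
  intro L _ _ _ _ _ _ x y hxy hf hx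
  have h1 := hmain L x y hxy hf hx
  rw [Nat.cast_zero, zero_mul, zero_add] at h1
  exact h1

end Pool.Agent.K1H80.Old.CodimTwoEllipticProducts
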