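import Mathlib
import Pool.Agent.K1H80.EC.Main

set_option autoImplicit false

/-!
# MP_44a246_nt: the truncated inequality of Vojta over function fields, for products of pairwise
# non-isogenous constant elliptic curves, all reduced divisors and all algebraic points

`F` is a function field of one variable over an algebraically closed field `k` of characteristic
zero, `A` the product of the elliptic curves `y² = x³ + a i x + b i`, `i < n`, over `k`, which are
pairwise not isogenous (so the canonical class of `A` is zero). `D` is any closed subscheme of `A`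
over `F` (not necessarily over `k`), given by multihomogeneous equations `G j = 0`, which is reduced
in codimension one; these are all reduced effective divisors, in particular all divisors with normal
crossings (and also subschemes of higher codimension).

The points are those of all finite extensions `L` of `F`, of unbounded degree. The inequality is that
of the conjecture: `h_D(P)` is at most the truncated counting function `N^(1)_S(D, P)`, in which each
place counts once, plus `ε h(P)` plus a constant times the sum of the degree of `L` and the
logarithmic discriminant of `L`. For `L = F` the last term is a constant, as in the conjecture.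

All heights are those of `L`, that is, `[L : F]` times the heights of the conjecture.
-/

namespace Pool.Agent.K1H80.Old.ConstantEllipticProducts

open MvPolynomial FF Pool.Agent.W603.PV

section defs

variable {k F L : Type} [Field k] [Field F] [Field L] [Algebra k L] [Algebra F L]

/-- The elliptic curves `y² = x³ + a x + b` and `y² = x³ + a' x + b'` over `k` are not isogenous:
over no extension field `M` of `k` is there a rational map `(X, Y)` from the first to the second
curve which is not constant. (Here `(x, y)` is a generic point of the first curve over `M`, the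
coordinates `X`, `Y` of a rational map are elements of its function field `M(x, y)`, and the map is
constant if `X` is algebraic over `M`.) -/
def NonIsogenous (a b a' b' : k) : Prop :=
  ∀ (M Ω : Type) [Field M] [Field Ω] [Algebra k M] [Algebra k Ω] [Algebra M Ω]
    [IsScalarTower k M Ω] (x y : Ω), Transcendental M x →
    y ^ 2 = x ^ 3 + algebraMap k Ω a * x + algebraMap k Ω b →
    ∀ X ∈ IntermediateField.adjoin M {x, y}, ∀ Y ∈ IntermediateField.adjoin M {x, y},
      Y ^ 2 = X ^ 3 + algebraMap k Ω a' * X + algebraMap k Ω b' → IsAlgebraic M X

/-- `G` is multihomogeneous of multidegree `d`: every monomial of `G` has the degree `d i` in the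
three homogeneous coordinates of the `i`-th curve. -/
def IsMultihomogeneous {n : ℕ} (d : Fin n → ℕ) (G : MvPolynomial (Fin n × Fin 3) F) : Prop :=
  ∀ m ∈ G.support, ∀ i, ∑ c, m (i, c) = d i

/-- `Q` consists of homogeneous coordinates of points of the curves
`Y² Z = X³ + a i X Z² + b i Z³`. -/
def IsPoint {n : ℕ} (a b : Fin n → k) (Q : Fin n × Fin 3 → L) : Prop :=
  ∀ i, (∃ c, Q (i, c) ≠ 0) ∧ Q (i, 1) ^ 2 * Q (i, 2) =
    Q (i, 0) ^ 3 + algebraMap k L (a i) * Q (i, 0) * Q (i, 2) ^ 2 +
      algebraMap k L (b i) * Q (i, 2) ^ 3

/-- The gradient of `Y² Z - X³ - a X Z² - b Z³` at `q = (X, Y, Z)`. -/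
def grad (a b : L) (q : Fin 3 → L) : Fin 3 → L :=
  ![-(3 * q 0 ^ 2 + a * q 2 ^ 2), 2 * q 1 * q 2, q 1 ^ 2 - 2 * a * q 0 * q 2 - 3 * b * q 2 ^ 2]

/-- The subscheme of the product of the curves with the equations `G j = 0` is reduced in codimension
one. If `Q` is a point of it, with coordinates in a field extension of `F`, at which the
differentials of all `G j` on the product are zero (in the coordinates of each curve, the gradient of
`G j` is a multiple of the gradient of the equation of the curve), then the point has codimension at
least two: no `n - 1` of the functions `X i / Z i` are algebraically independent over `F` at `Q`. -/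
def IsReducedInCodimOne [Algebra k F] {n w : ℕ} (a b : Fin n → k)
    (G : Fin w → MvPolynomial (Fin n × Fin 3) F) : Prop :=
  ∀ (K : Type) [Field K] [Algebra k K] [Algebra F K] [IsScalarTower k F K]
    (Q : Fin n × Fin 3 → K), IsPoint a b Q → (∀ j, aeval Q (G j) = 0) →
    (∀ j i, ∃ l, ∀ c, aeval Q (pderiv (i, c) (G j)) =
      l * grad (algebraMap k K (a i)) (algebraMap k K (b i)) (fun c => Q (i, c)) c) →
    ∀ i0, ¬ AlgebraicIndependent F (fun i : {i : Fin n // i ≠ i0} => Q (i, 0) / Q (i, 2))

/-- Homogeneous coordinates `(x i, y i, 1)` of the points `(x i, y i)`. -/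
def coords {n : ℕ} (x y : Fin n → L) (v : Fin n × Fin 3) : L := ![x v.1, y v.1, 1] v.2

/-- The minimum of the orders of the nonzero entries of `x` at the place `P`. -/
noncomputable def minOrd {ι : Type} (P : Place k L) (x : ι → L) : ℤ :=
  ⨅ c : {c // x c ≠ 0}, P.ord (x c.1)

variable (k) in
/-- The height of the point with the homogeneous coordinates `x`: minus the sum over all places of
the minimum of the orders of the coordinates. -/
noncomputable def height {ι : Type} (x : ι → L) : ℤ := -∑ᶠ P : Place k L, minOrd P x

/-- The local height at `P` with respect to the subscheme with the equations `G j = 0`, `G j` of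
multidegree `d j`: the minimum of the orders of `G j`, computed with coordinates of minimal order
zero for each curve. -/
noncomputable def localHeight {n w : ℕ} (G : Fin w → MvPolynomial (Fin n × Fin 3) F)
    (d : Fin w → Fin n → ℕ) (P : Place k L) (Q : Fin n × Fin 3 → L) : ℤ :=
  ⨅ j : {j // aeval Q (G j) ≠ 0},
    (P.ord (aeval Q (G j.1)) - ∑ i, d j.1 i * minOrd P (fun c => Q (i, c)))

variable (k) in
/-- The height `h_D(Q)`: the sum of all local heights. -/
noncomputable def divisorHeight {n w : ℕ} (G : Fin w → MvPolynomial (Fin n × Fin 3) F)
    (d : Fin w → Fin n → ℕ) (Q : Fin n × Fin 3 → L) : ℤ :=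
  ∑ᶠ P : Place k L, localHeight G d P Q

/-- The truncated counting function `N^(1)_S(D, Q)`: the number of the places of `L`, not over a place
in `S`, at which the local height of `Q` with respect to `D` is positive. -/
noncomputable def truncatedCounting [Algebra k F] [IsScalarTower k F L] [IsAlgClosed k]
    [CharZero k] [IsFF k F] [IsFF k L] {n w : ℕ} (G : Fin w → MvPolynomial (Fin n × Fin 3) F)
    (d : Fin w → Fin n → ℕ) (S : Finset (Place k F)) (Q : Fin n × Fin 3 → L) : ℕ :=
  {P : Place k L | under F P ∉ S ∧ 0 < localHeight G d P Q}.ncard

end defs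

/-- **Main theorem.** Let `F` be a function field of one variable over an algebraically closed field
`k` of characteristic zero, `A` the product of pairwise non-isogenous elliptic curves
`y² = x³ + a i x + b i` over `k`, `D` a subscheme of `A` over `F` which is reduced in codimension one,
`S` a finite set of places of `F` and `ε > 0`. There are a nonzero polynomial `f` over `F` and a
constant `C` such that for all finite extensions `L` of `F` and all points `P = ((x i, y i))` of `A`
over `L` with `f(x) ≠ 0` and outside `D` the truncated inequality of Vojta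
`h_D(P) ≤ N^(1)_S(D, P) + ε h(P) + C ([L : F] + disc(L / F))` holds, `h(P)` being the sum of the
heights of the `(x i, y i)`. -/
theorem result {k F : Type} [Field k] [IsAlgClosed k] [CharZero k] [Field F] [Algebra k F]
    [IsFF k F] (n w : ℕ) (a b : Fin n → k) (hab : ∀ i, 4 * a i ^ 3 + 27 * b i ^ 2 ≠ 0)
    (hni : ∀ i j, i ≠ j → NonIsogenous (a i) (b i) (a j) (b j))
    (G : Fin w → MvPolynomial (Fin n × Fin 3) F) (d : Fin w → Fin n → ℕ)
    (hG : ∀ j, IsMultihomogeneous (d j) (G j)) (hD : IsReducedInCodimOne a b G)
    (S : Finset (Place k F)) (ε : ℝ) (hε : 0 < ε) :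
    ∃ (f : MvPolynomial (Fin n) F) (C : ℝ), f ≠ 0 ∧
      ∀ (L : Type) [Field L] [Algebra k L] [Algebra F L] [IsScalarTower k F L]
        [FiniteDimensional F L] [IsFF k L] (x y : Fin n → L),
        (∀ i, y i ^ 2 = x i ^ 3 + algebraMap k L (a i) * x i + algebraMap k L (b i)) →
        aeval x f ≠ 0 → (∃ j, aeval (coords x y) (G j) ≠ 0) →
          (divisorHeight k G d (coords x y) : ℝ) ≤
            truncatedCounting G d S (coords x y) + ε * ∑ i, (height k ![x i, y i, 1] : ℝ) +
              C * (Module.finrank F L + disc k F L) := by
  classical
  obtain ⟨f, C, hf0, hmain⟩ := Pool.Agent.K1H80.EC.ecMain (k := k) (F := F) hab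
    (fun i j hij => hni i j hij) G d (fun j => hG j) 1 (Or.inl ⟨rfl, hD⟩) ε hε
  set c0 : ℤ := ∑ v ∈ S, Pool.Agent.W603.LV.hgt k (Pool.Agent.W603.LV.unif v) with hc0
  have hc0' : 0 ≤ c0 := Finset.sum_nonneg fun v _ => Pool.Agent.W603.LV.hgt_nonneg _
  refine ⟨f, C + c0, hf0, ?_⟩
  intro L _ _ _ _ _ _ x y hxy hf hx
  have h2 : (divisorHeight k G d (coords x y) : ℝ) ≤
      ({P : Place k L | 0 < localHeight G d P (coords x y)}.ncard : ℝ) +
        ε * ∑ i, (height k ![x i, y i, 1] : ℝ) + C * (Module.finrank F L + disc k F L) := by
    have h1 := hmain L x y hxy hf hx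
    rw [Nat.cast_one, one_mul] at h1
    exact h1
  -- the places over `S`
  have h4 : {P : Place k L | 0 < localHeight G d P (coords x y)} ⊆
      {P : Place k L | under F P ∉ S ∧ 0 < localHeight G d P (coords x y)} ∪
        {P : Place k L | under F P ∈ S} := by
    intro P hP
    by_cases h : under F P ∈ S
    · exact Or.inr h
    · exact Or.inl ⟨h, hP⟩
  have hfin : {P : Place k L | 0 < localHeight G d P (coords x y)}.Finite := by
    refine (Pool.Agent.K1H80.EC.locE_finite (k := k) G d x y hx).subset ?_
    intro P hP
    exact ne_of_gt hP
  have hfin2 : {P : Place k L | under F P ∈ S}.Finite := finite_over_set (Finset.finite_toSet S)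
  have h6 : {P : Place k L | 0 < localHeight G d P (coords x y)}.ncard ≤
      truncatedCounting G d S (coords x y) + {P : Place k L | under F P ∈ S}.ncard := by
    refine (Set.ncard_le_ncard h4 ((hfin.subset fun P hP => hP.2).union hfin2)).trans ?_
    exact Set.ncard_union_le _ _
  have h7 : (({P : Place k L | under F P ∈ S}.ncard : ℕ) : ℤ) ≤ Module.finrank F L * c0 :=
    card_over_le S
  have h8 : ({P : Place k L | 0 < localHeight G d P (coords x y)}.ncard : ℝ) ≤
      truncatedCounting G d S (coords x y) + Module.finrank F L * c0 := by
    have h9 : ({P : Place k L | 0 < localHeight G d P (coords x y)}.ncard : ℝ) ≤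
        truncatedCounting G d S (coords x y) + ({P : Place k L | under F P ∈ S}.ncard : ℝ) := by
      exact_mod_cast h6
    have h10 : ({P : Place k L | under F P ∈ S}.ncard : ℝ) ≤ Module.finrank F L * c0 := by
      exact_mod_cast h7
    linarith
  have h11 : (0 : ℝ) ≤ disc k F L := by
    exact_mod_cast Pool.Agent.Y731.FG.disc_nonneg (k := k) (F := F) (L := L)
  have h13 : (0 : ℝ) ≤ c0 := by exact_mod_cast hc0'
  have h14 : (C + c0 : ℝ) * (Module.finrank F L + disc k F L) =
      C * (Module.finrank F L + disc k F L) + Module.finrank F L * c0 + c0 * disc k F L := by ring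
  have h15 : (0 : ℝ) ≤ c0 * disc k F L := by positivity
  rw [h14]
  linarith

end Pool.Agent.K1H80.Old.ConstantEllipticProducts
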